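import Pool.Agent.Helper84.OX.St

/-!
# Project OX (MP_2c90c1_al), module LR0: relative Euler characteristic of a graph
-/

set_option autoImplicit false

namespace Pool.Agent.Helper64.OX

open Pool.Agent.Helper96.UT hiding StTOP TopV TopE tht Bd VC EC
open Pool.Agent.Helper96.GU Pool.Agent.Helper84.OX

theorem hLR0 : StLR0 := by
  classical
  intro α Ω _ E V Zv Ze _ hClo hJ
  let ext : ({x // x ∈ out V Zv} → ℚ) →ₗ[ℚ] (Ω → ℚ) :=
    { toFun := fun ξ e => if h : e ∈ out V Zv then ξ ⟨e, h⟩ else 0
      map_add' := by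
        intro ξ ζ
        funext e
        by_cases h : e ∈ out V Zv
        · simp [h]
        · simp [h]
      map_smul' := by
        intro c ξ
        funext e
        by_cases h : e ∈ out V Zv
        · simp [h]
        · simp [h] }
  have hext : ∀ (ξ : {x // x ∈ out V Zv} → ℚ) (e : Ω) (h : e ∈ out V Zv), ext ξ e = ξ ⟨e, h⟩ := by
    intro ξ e h
    change (if h : e ∈ out V Zv then ξ ⟨e, h⟩ else 0) = _
    rw [dif_pos h]
  have hext0 : ∀ (ξ : {x // x ∈ out V Zv} → ℚ) (e : Ω), e ∉ out V Zv → ext ξ e = 0 := by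
    intro ξ e h
    change (if h : e ∈ out V Zv then ξ ⟨e, h⟩ else 0) = _
    rw [dif_neg h]
  let δ : ({x // x ∈ out V Zv} → ℚ) →ₗ[ℚ] ({e // e ∈ out E Ze} → ℚ) :=
    { toFun := fun f e => ext f (act e.1.1 (lt (e.1.2, true))) - ext f e.1.1
      map_add' := by
        intro f g
        funext e
        simp only [map_add, Pi.add_apply]
        ring
      map_smul' := by
        intro c f
        funext e
        simp only [map_smul, Pi.smul_apply, smul_eq_mul, RingHom.id_apply]
        ring }
  have hinj : Function.Injective δ := by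
    rw [← LinearMap.ker_eq_bot, LinearMap.ker_eq_bot']
    intro f hf
    have hZ : ∀ y ∈ Zv, ext f y = 0 := fun y hy => hext0 f y (fun h => (mem_out.1 h).2 hy)
    have h1 : ∀ e ∈ (E : Set (Ω × α)),
        (fun e : Ω × α => ext f (act e.1 (lt (e.2, true))) - ext f e.1) e =
          (fun e : Ω × α => (fun _ : Ω => (0 : ℚ)) (act e.1 (lt (e.2, true))) -
            (fun _ : Ω => (0 : ℚ)) e.1) e := by
      rintro ⟨x, a⟩ he
      change ext f (act x (lt (a, true))) - ext f x = 0 - 0
      rw [sub_zero]
      by_cases hz : (x, a) ∈ Ze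
      · obtain ⟨h2, h3⟩ := hClo x a hz
        rw [hZ _ h2, hZ _ h3, sub_zero]
      · have h2 := congrFun hf ⟨(x, a), mem_out.2 ⟨Finset.mem_coe.1 he, hz⟩⟩
        exact h2
    have h4 : ∀ x ∈ V, ext f x = 0 := by
      intro x hx
      obtain ⟨y, hy, q, hq, hqy⟩ := hJ x hx
      have h5 := Sm_congr_on h1 hq
      have h6 : ext f (act x (FreeGroup.mk q)) - ext f x = 0 := by
        rw [← Sm_cob (ext f) x q]
        refine h5.trans ?_
        rw [Sm_cob (fun _ : Ω => (0 : ℚ)) x q]
        exact sub_zero _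
      rw [hqy, hZ y hy] at h6
      linarith [h6]
    funext x
    have h6 := h4 x.1 (mem_out.1 x.2).1
    rw [hext f x.1 x.2] at h6
    exact h6
  have h := LinearMap.finrank_le_finrank_of_injective hinj
  rw [Module.finrank_pi, Module.finrank_pi, Fintype.card_coe, Fintype.card_coe] at h
  exact h

end Pool.Agent.Helper64.OX
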