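import Pool.Agent.Helper84.OX.St

/-!
# Project OX (MP_2c90c1_al), module QRL
-/

set_option autoImplicit false

namespace Pool.Agent.Helper64.OX

open Pool.Agent.Helper96.UT hiding StTOP TopV TopE tht Bd VC EC
open Pool.Agent.Helper96.GU Pool.Agent.Helper84.OX

private theorem out_split {T : Type} (V W : Finset T) (A : Set T) (hWV : W ⊆ V) :
    (out V A).card = (out V (A ∪ (W : Set T))).card + (out W A).card := by
  classical
  have h1 : out V A = out V (A ∪ (W : Set T)) ∪ out W A := by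
    ext x
    rw [Finset.mem_union, mem_out, mem_out, mem_out, Set.mem_union, Finset.mem_coe]
    constructor
    · rintro ⟨h1, h2⟩
      by_cases hW : x ∈ W
      · exact Or.inr ⟨hW, h2⟩
      · exact Or.inl ⟨h1, fun h => h.elim h2 hW⟩
    · rintro (⟨h1, h2⟩ | ⟨h1, h2⟩)
      · exact ⟨h1, fun h => h2 (Or.inl h)⟩
      · exact ⟨hWV h1, h2⟩
  have h2 : Disjoint (out V (A ∪ (W : Set T))) (out W A) := by
    rw [Finset.disjoint_left]
    intro x hx hx'
    rw [mem_out] at hx hx'
    exact hx.2 (Or.inr hx'.1)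
  rw [h1, Finset.card_union_of_disjoint h2]

private theorem out_erase {T : Type} [DecidableEq T] (V : Finset T) (A : Set T) (x : T) (hx : x ∈ V)
    (hxA : x ∉ A) : (out V A).card = (out (V.erase x) A).card + 1 := by
  have h1 : out (V.erase x) A = (out V A).erase x := by
    ext y
    rw [Finset.mem_erase, mem_out, mem_out, Finset.mem_erase, and_assoc]
  have h2 : x ∈ out V A := mem_out.2 ⟨hx, hxA⟩
  rw [h1]
  exact (Finset.card_erase_add_one h2).symm

theorem hQRL : StLR0 → StCNR → StQRL := by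
  classical
  intro hL hN α Z η Ω _ E V D Zv Ze
  induction hm : D.card generalizing E D with
  | zero =>
    intro hClo hEnds hCpx hV k₀ hk₀ hZ hJ
    exact hL α Ω E V Zv Ze hEnds hClo hJ
  | succ N ih =>
    intro hClo hEnds hCpx hV k₀ hk₀ hZ hJ
    by_cases hcase : ∃ u ∈ D, ∀ k : ℤ, TopV Z D η.η u k ∧ act u (pre Z.c k) ∉ Zv
    · obtain ⟨u, hu, hk⟩ := hcase
      have hB : ∀ i < Z.n, (u, i) ∉ Bd Z D η.η := by
        intro i _ hi
        unfold Bd at hi
        rw [Finset.mem_filter] at hi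
        exact hi.2.2 (hk i).1
      obtain ⟨k, hS⟩ := aSNG α Z η Ω D hCpx.fix u hu hB
      have hC' : ∀ y, y ∈ D.erase u ↔ y ∈ D ∧ y ≠ u := fun y => by
        rw [Finset.mem_erase, and_comm]
      have h1 := (aREQ α Z Ω (E : Set (Ω × α)) D hCpx u hu k hS (D.erase u) hC').1
      obtain ⟨ρ, -, -, -, -, h5, -⟩ := aRHO α Z Ω (E : Set (Ω × α)) D hCpx u hu k hS
      have he : ed (act u (pre Z.c k)) (Z.c k) ∈ E := by
        have := hCpx.sub u hu
        exact Finset.mem_coe.1 (this ⟨k, rfl⟩)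
      have hcoe : ((E.erase (ed (act u (pre Z.c k)) (Z.c k)) : Finset (Ω × α)) : Set (Ω × α)) =
          (E : Set (Ω × α)) \ {ed (act u (pre Z.c k)) (Z.c k)} := Finset.coe_erase _ _
      have heZ : ed (act u (pre Z.c k)) (Z.c k) ∉ Ze := fun h => (hk k).2 (hClo.ed h).1
      have hDc : (D.erase u).card = N := by
        rw [Finset.card_erase_of_mem hu]
        omega
      have h2 := ih (E.erase (ed (act u (pre Z.c k)) (Z.c k))) (D.erase u) hDc hClo
        (fun x a h => hEnds x a (Finset.mem_of_mem_erase h)) (by rw [hcoe]; exact h1)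
        (fun w hw => hV w (Finset.mem_of_mem_erase hw)) k₀ hk₀
        (fun w hw => hZ w (Finset.mem_of_mem_erase hw)) (by
          intro x hx
          obtain ⟨y, hy, q, hq, hqy⟩ := hJ x hx
          obtain ⟨q', hq', -, hcl'⟩ := h5 x q hq
          refine ⟨y, hy, q', ?_, ?_⟩
          · rw [hcoe]
            exact hq'
          · rw [hcl', hqy])
      have h3 := out_erase E Ze _ he heZ
      omega
    · have hcase' : ∀ u ∈ D, ∃ k : ℤ, ¬ TopV Z D η.η u k ∨ act u (pre Z.c k) ∈ Zv := by
        intro u hu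
        by_contra hno
        push Not at hno
        exact hcase ⟨u, hu, fun k => ⟨(hno k).1, (hno k).2⟩⟩
      have h1 := hN α Z η Ω D Zv Ze hCpx.fix hClo k₀ hk₀ hZ hcase'
      have hVC : VC Z D ⊆ V := by
        intro x hx
        obtain ⟨u, hu, k, rfl⟩ := (mem_VC' Z D hCpx.fix x).1 hx
        exact hV u hu k
      have hEC : EC Z D ⊆ E := by
        intro e he
        obtain ⟨u, hu, k, rfl⟩ := (mem_EC' Z D hCpx.fix e).1 he
        exact Finset.mem_coe.1 (hCpx.sub u hu ⟨k, rfl⟩)
      have hClo' : Clo (Zv ∪ (VC Z D : Set Ω)) (Ze ∪ (EC Z D : Set (Ω × α))) := by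
        intro x a h
        rcases h with h | h
        · exact ⟨Or.inl (hClo x a h).1, Or.inl (hClo x a h).2⟩
        · have h' := ends_EC Z D hCpx.fix x a (Finset.mem_coe.1 h)
          exact ⟨Or.inr (Finset.mem_coe.2 h'.1), Or.inr (Finset.mem_coe.2 h'.2)⟩
      have h2 := hL α Ω E V (Zv ∪ (VC Z D : Set Ω)) (Ze ∪ (EC Z D : Set (Ω × α))) hEnds hClo'
        (fun x hx => by
          obtain ⟨y, hy, h⟩ := hJ x hx
          exact ⟨y, Or.inl hy, h⟩)
      have h3 := out_split V (VC Z D) Zv hVC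
      have h4 := out_split E (EC Z D) Ze hEC
      omega

end Pool.Agent.Helper64.OX
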